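import Pool.Agent.H24.BP.PLOG

/-!
# BP module LOW: lower bound for the mean of `log |f|`
-/

open MeasureTheory Set Filter Topology Metric
open scoped Real ENNReal NNReal

namespace Pool.Agent.H24.BP

open Pool.Agent.H66.BP

theorem int_abs_cos : ∫ θ in (0 : ℝ)..2 * π, |Real.cos θ| = 4 := by
  have hpi := Real.pi_pos
  have hc : Continuous fun θ : ℝ => |Real.cos θ| := Real.continuous_cos.abs
  have h1 : ∫ θ in (0 : ℝ)..π / 2, |Real.cos θ| = 1 := by
    have : ∫ θ in (0 : ℝ)..π / 2, |Real.cos θ| = ∫ θ in (0 : ℝ)..π / 2, Real.cos θ := by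
      refine intervalIntegral.integral_congr fun θ hθ => ?_
      rw [uIcc_of_le (by positivity)] at hθ
      exact abs_of_nonneg (Real.cos_nonneg_of_mem_Icc ⟨by linarith [hθ.1], hθ.2⟩)
    rw [this, integral_cos]
    simp
  have h2 : ∫ θ in (π / 2)..(3 * π / 2), |Real.cos θ| = 2 := by
    have : ∫ θ in (π / 2)..(3 * π / 2), |Real.cos θ| =
        ∫ θ in (π / 2)..(3 * π / 2), -Real.cos θ := by
      refine intervalIntegral.integral_congr fun θ hθ => ?_
      rw [uIcc_of_le (by linarith)] at hθ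
      exact abs_of_nonpos (Real.cos_nonpos_of_pi_div_two_le_of_le hθ.1 (by linarith [hθ.2]))
    rw [this, intervalIntegral.integral_neg, integral_cos]
    have e : Real.sin (3 * π / 2) = -1 := by
      rw [show 3 * π / 2 = π / 2 + π by ring, Real.sin_add_pi, Real.sin_pi_div_two]
    rw [e, Real.sin_pi_div_two]
    norm_num
  have h3 : ∫ θ in (3 * π / 2)..(2 * π), |Real.cos θ| = 1 := by
    have : ∫ θ in (3 * π / 2)..(2 * π), |Real.cos θ| =
        ∫ θ in (3 * π / 2)..(2 * π), Real.cos θ := by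
      refine intervalIntegral.integral_congr fun θ hθ => ?_
      rw [uIcc_of_le (by linarith)] at hθ
      refine abs_of_nonneg ?_
      rw [← Real.cos_sub_two_pi]
      exact Real.cos_nonneg_of_mem_Icc ⟨by linarith [hθ.1], by linarith [hθ.2]⟩
    rw [this, integral_cos]
    have e : Real.sin (3 * π / 2) = -1 := by
      rw [show 3 * π / 2 = π / 2 + π by ring, Real.sin_add_pi, Real.sin_pi_div_two]
    rw [e, Real.sin_two_pi]
    norm_num
  rw [← intervalIntegral.integral_add_adjacent_intervals (hc.intervalIntegrable 0 (3 * π / 2))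
    (hc.intervalIntegrable _ _), ← intervalIntegral.integral_add_adjacent_intervals
    (hc.intervalIntegrable 0 (π / 2)) (hc.intervalIntegrable _ _), h1, h2, h3]
  norm_num

theorem circleMap_re (t θ : ℝ) : (circleMap 0 t θ).re = t * Real.cos θ := by
  simp [circleMap, Complex.exp_ofReal_mul_I_re]

theorem circleMap_im (t θ : ℝ) : (circleMap 0 t θ).im = t * Real.sin θ := by
  simp [circleMap, Complex.exp_ofReal_mul_I_im]

/-- the growth function -/
def mm (h₁ h₂ : ℝ) (l : ℂ) : ℝ := max (l.re * h₁) (-l.re * h₂)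

theorem mm_eq {h₁ h₂ : ℝ} (h : 0 ≤ h₁ + h₂) (l : ℂ) :
    mm h₁ h₂ l = (h₁ + h₂) / 2 * |l.re| + (h₁ - h₂) / 2 * l.re := by
  unfold mm
  rcases le_total 0 l.re with h0 | h0
  · rw [abs_of_nonneg h0, max_eq_left (by nlinarith)]
    ring
  · rw [abs_of_nonpos h0, max_eq_right (by nlinarith)]
    ring

theorem mm_cont (h₁ h₂ : ℝ) : Continuous (mm h₁ h₂) :=
  (Complex.continuous_re.mul continuous_const).max (Complex.continuous_re.neg.mul continuous_const)

theorem avg_mm {h₁ h₂ : ℝ} (h : 0 ≤ h₁ + h₂) {t : ℝ} (ht : 0 < t) :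
    Real.circleAverage (mm h₁ h₂) 0 t = t * ((h₁ + h₂) / π) := by
  unfold Real.circleAverage
  have e : (fun θ : ℝ => mm h₁ h₂ (circleMap 0 t θ)) = fun θ =>
      (h₁ + h₂) / 2 * t * |Real.cos θ| + (h₁ - h₂) / 2 * t * Real.cos θ := by
    funext θ
    rw [mm_eq h, circleMap_re, abs_mul, abs_of_pos ht]
    ring
  rw [e, intervalIntegral.integral_add, intervalIntegral.integral_const_mul,
    intervalIntegral.integral_const_mul, int_abs_cos, integral_cos]
  · have := Real.pi_ne_zero
    simp only [Real.sin_two_pi, Real.sin_zero, sub_zero, mul_zero, add_zero, smul_eq_mul]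
    field_simp
    ring
  · exact (continuous_const.mul Real.continuous_cos.abs).intervalIntegrable _ _
  · exact (continuous_const.mul Real.continuous_cos).intervalIntegrable _ _

theorem mm_abs {h₁ h₂ A : ℝ} (h1 : |h₁| ≤ A) (h2 : |h₂| ≤ A) (l : ℂ) :
    |mm h₁ h₂ l| ≤ |l.re| * A := by
  have e1 : |l.re * h₁| ≤ |l.re| * A := by
    rw [abs_mul]; exact mul_le_mul_of_nonneg_left h1 (abs_nonneg _)
  have e2 : |-l.re * h₂| ≤ |l.re| * A := by
    rw [abs_mul, abs_neg]; exact mul_le_mul_of_nonneg_left h2 (abs_nonneg _)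
  unfold mm
  rw [abs_le] at e1 e2 ⊢
  exact ⟨e1.1.trans (le_max_left _ _), max_le e1.2 e2.2⟩

theorem avg_pk {q : ℂ} {t : ℝ} (hq : q ∈ ball (0 : ℂ) t) :
    Real.circleAverage (poissonKernel 0 q) 0 t = 1 := by
  have h := InnerProductSpace.HarmonicOnNhd.circleAverage_poissonKernel_smul
    (f := fun _ => (1 : ℝ)) (c := 0) (w := q) (R := t)
    (fun z _ => InnerProductSpace.harmonicAt_const 1) hq
  have e : (poissonKernel 0 q • fun _ : ℂ => (1 : ℝ)) = poissonKernel 0 q := by
    funext z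
    simp
  rwa [e] at h

theorem pk_nonneg {q : ℂ} {t : ℝ} (hq : q ∈ ball (0 : ℂ) t) {z : ℂ} (hz : ‖z‖ = t) :
    0 ≤ poissonKernel 0 q z := by
  unfold poissonKernel
  rw [sub_zero, sub_zero, hz]
  rw [mem_ball_zero_iff] at hq
  refine div_nonneg ?_ (sq_nonneg _)
  nlinarith [norm_nonneg q]

theorem circle_int {g : ℂ → ℝ} {t : ℝ} (hg : Continuous g) : CircleIntegrable g 0 t :=
  hg.continuousOn.circleIntegrable'

theorem pk_mul_int {q : ℂ} {t : ℝ} (hq : q ∈ ball (0 : ℂ) t) {g : ℂ → ℝ}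
    (hg : CircleIntegrable g 0 t) : CircleIntegrable (fun z => poissonKernel 0 q z * g z) 0 t := by
  have h : IntervalIntegrable (fun θ => g (circleMap 0 t θ)) volume 0 (2 * π) := hg
  exact h.continuousOn_mul (pk_cont hq).continuousOn

theorem pois_bound (hplog : T_PLOG) {f : ℂ → ℂ} (hf : Differentiable ℂ f) {h₁ h₂ A lp t : ℝ}
    (h1 : |h₁| ≤ A) (h2 : |h₂| ≤ A) (ht : 0 < t) {q : ℂ} (hq : q ∈ ball (0 : ℂ) t)
    (hfq : f q ≠ 0) :
    Real.circleAverage (fun z => poissonKernel 0 q z * (lp + mm h₁ h₂ z - Real.log ‖f z‖)) 0 t ≤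
      |lp| + t * A - Real.log ‖f q‖ := by
  have hA : 0 ≤ A := (abs_nonneg _).trans h1
  have i1 : CircleIntegrable (fun z => poissonKernel 0 q z * (lp + mm h₁ h₂ z)) 0 t :=
    pk_mul_int hq (circle_int (continuous_const.add (mm_cont h₁ h₂)))
  have i2 : CircleIntegrable (fun z => poissonKernel 0 q z * Real.log ‖f z‖) 0 t :=
    pk_mul_int hq (log_int hf 0 t)
  have e1 : (fun z => poissonKernel 0 q z * (lp + mm h₁ h₂ z - Real.log ‖f z‖)) =
      (fun z => poissonKernel 0 q z * (lp + mm h₁ h₂ z)) -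
      (fun z => poissonKernel 0 q z * Real.log ‖f z‖) := by
    funext z
    simp only [Pi.sub_apply]
    ring
  rw [e1, Real.circleAverage_sub i1 i2]
  have h3 := hplog f hf q t ht hq hfq
  have h4 : Real.circleAverage (fun z => poissonKernel 0 q z * (lp + mm h₁ h₂ z)) 0 t ≤
      |lp| + t * A := by
    have h5 : Real.circleAverage (fun z => poissonKernel 0 q z * (|lp| + t * A)) 0 t =
        |lp| + t * A := by
      have e2 : (fun z => poissonKernel 0 q z * (|lp| + t * A)) =
          (|lp| + t * A) • poissonKernel 0 q := by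
        funext z
        simp only [Pi.smul_apply, smul_eq_mul]
        ring
      rw [e2, Real.circleAverage_smul, avg_pk hq, smul_eq_mul, mul_one]
    rw [← h5]
    refine Real.circleAverage_mono i1 (pk_mul_int hq (circleIntegrable_const _ _ _)) fun z hz => ?_
    rw [abs_of_pos ht, mem_sphere_zero_iff_norm] at hz
    refine mul_le_mul_of_nonneg_left ?_ (pk_nonneg hq hz)
    have h6 := mm_abs h1 h2 z
    have h7 : |z.re| ≤ t := hz ▸ Complex.abs_re_le_norm z
    have h8 : |z.re| * A ≤ t * A := mul_le_mul_of_nonneg_right h7 hA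
    linarith [le_abs_self lp, (abs_le.1 h6).2]
  linarith

/-- lower bound for the kernel on the two arcs; `σ = 1` or `-1` -/
theorem pk_lower {a t σ : ℝ} (ha : 0 < a) (hat : 5 * a ≤ t) (hσ : σ ^ 2 = 1) {z : ℂ}
    (hz : ‖z‖ = t) (hx : |z.re| < a) (hy : 0 ≤ σ * z.im) :
    (⟨2 * a, σ * (t - 4 * a)⟩ : ℂ) ∈ ball (0 : ℂ) t ∧
    4 * t / (25 * a) ≤ poissonKernel 0 ⟨2 * a, σ * (t - 4 * a)⟩ z := by
  set q : ℂ := ⟨2 * a, σ * (t - 4 * a)⟩ with hq
  have ht : 0 < t := by linarith
  have hq2 : ‖q‖ ^ 2 = 4 * a ^ 2 + (t - 4 * a) ^ 2 := by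
    rw [Complex.sq_norm, Complex.normSq_apply]
    simp only [hq]
    linear_combination (t - 4 * a) ^ 2 * hσ
  have hz2 : z.re ^ 2 + z.im ^ 2 = t ^ 2 := by
    rw [← hz, Complex.sq_norm, Complex.normSq_apply]
    ring
  have hqt : ‖q‖ ^ 2 < t ^ 2 := by
    rw [hq2]
    nlinarith
  have hqb : ‖q‖ < t := lt_of_pow_lt_pow_left₀ 2 ht.le hqt
  refine ⟨by rwa [mem_ball_zero_iff], ?_⟩
  unfold poissonKernel
  rw [sub_zero, sub_zero, hz, hq2]
  have hzq : 0 < ‖z - q‖ ^ 2 := by
    refine pow_pos (norm_pos_iff.2 (sub_ne_zero.2 fun h => ?_)) 2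
    rw [h] at hz
    linarith
  have hx' := abs_lt.1 hx
  have hxa : z.re ^ 2 ≤ a ^ 2 := by nlinarith
  set y := σ * z.im with hyd
  have hy2 : y ^ 2 = z.im ^ 2 := by
    rw [hyd]
    linear_combination z.im ^ 2 * hσ
  have hyt : y ≤ t := by nlinarith
  have hya : t - a ≤ y := by
    by_contra hcon
    push Not at hcon
    nlinarith
  have hzq2 : ‖z - q‖ ^ 2 ≤ 25 * a ^ 2 := by
    rw [Complex.sq_norm, Complex.normSq_apply]
    simp only [hq, Complex.sub_re, Complex.sub_im]
    have e1 : (z.im - σ * (t - 4 * a)) * (z.im - σ * (t - 4 * a)) = (y - (t - 4 * a)) ^ 2 := by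
      rw [hyd]
      linear_combination ((t - 4 * a) ^ 2 - z.im ^ 2) * hσ
    rw [e1]
    have e2 : (z.re - 2 * a) * (z.re - 2 * a) ≤ 9 * a ^ 2 := by nlinarith
    have e3 : (y - (t - 4 * a)) ^ 2 ≤ 16 * a ^ 2 := by nlinarith
    linarith
  rw [div_le_div_iff₀ (by positivity) hzq]
  have e4 : t ^ 2 - (4 * a ^ 2 + (t - 4 * a) ^ 2) = 8 * a * t - 20 * a ^ 2 := by ring
  rw [e4]
  calc 4 * t * ‖z - q‖ ^ 2 ≤ 4 * t * (25 * a ^ 2) :=
        mul_le_mul_of_nonneg_left hzq2 (by positivity)
    _ ≤ (8 * a * t - 20 * a ^ 2) * (25 * a) := by nlinarith [mul_pos ha ha]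

theorem low_large (hplog : T_PLOG) {C p A : ℝ} (hC : 0 < C) (hp : 0 < p)
    {f : ℂ → ℂ} {h₁ h₂ : ℝ} (h1 : |h₁| ≤ A) (h2 : |h₂| ≤ A) (h12 : 0 ≤ h₁ + h₂)
    (hf : Differentiable ℂ f) (hf0 : ‖f 0‖ = p)
    (hup : ∀ l : ℂ, ‖f l‖ ≤ p * Real.exp (max (l.re * h₁) (-l.re * h₂)))
    (hlo : ∀ l : ℂ, C * Real.log (2 + ‖l‖) ≤ |l.re| →
      Real.exp (max (l.re * h₁) (-l.re * h₂)) ≤ (1 + ‖l‖) * ‖f l‖) {t : ℝ} (ht : 1 ≤ t)
    (hat : 5 * (C * Real.log (2 + t)) ≤ t) :
    Real.log p + t * ((h₁ + h₂) / π) -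
      ((|Real.log p| + 1) + 25 * C / 2 * (|Real.log p| + 2 * A + 1)) * Real.log (2 + t) ≤
      Real.circleAverage (fun z => Real.log ‖f z‖) 0 t := by
  have ht0 : 0 < t := by linarith
  have hA : 0 ≤ A := (abs_nonneg _).trans h1
  set Lg := Real.log (2 + t) with hLg
  have hLg1 : 1 ≤ Lg := by
    have : Real.exp 1 ≤ 2 + t := by linarith [Real.exp_one_lt_d9]
    exact (Real.le_log_iff_exp_le (by linarith)).2 this
  have hlog1 : Real.log (1 + t) ≤ Lg := Real.log_le_log (by linarith) (by linarith)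
  have hlog2 : Real.log (1 + t) ≤ t := by
    have := Real.log_le_sub_one_of_pos (show 0 < 1 + t by linarith)
    linarith
  have hlog0 : 0 ≤ Real.log (1 + t) := Real.log_nonneg (by linarith)
  set a := C * Lg with ha
  have hap : 0 < a := by positivity
  set lp := Real.log p with hlp
  have hf0' : f 0 ≠ 0 := norm_pos_iff.1 (by rw [hf0]; exact hp)
  set D : ℂ → ℝ := fun z => lp + mm h₁ h₂ z - Real.log ‖f z‖ with hD
  have hDint : CircleIntegrable D 0 t :=
    (circle_int (continuous_const.add (mm_cont h₁ h₂))).sub (log_int hf 0 t)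
  have hD0 : ∀ z, f z ≠ 0 → 0 ≤ D z := by
    intro z hz
    have h3 := Real.log_le_log (norm_pos_iff.2 hz) (hup z)
    rw [Real.log_mul hp.ne' (Real.exp_pos _).ne', Real.log_exp] at h3
    simp only [hD]
    have : mm h₁ h₂ z = max (z.re * h₁) (-z.re * h₂) := rfl
    linarith
  have hgood : ∀ z, C * Real.log (2 + ‖z‖) ≤ |z.re| → 0 < |z.re| →
      f z ≠ 0 ∧ mm h₁ h₂ z ≤ Real.log (1 + ‖z‖) + Real.log ‖f z‖ := by
    intro z hz _
    have h3 := hlo z hz
    have h4 : 0 < (1 + ‖z‖) * ‖f z‖ := (Real.exp_pos _).trans_le h3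
    have h5 : 0 < ‖f z‖ := (pos_iff_pos_of_mul_pos h4).1 (by positivity)
    refine ⟨norm_pos_iff.1 h5, ?_⟩
    rw [← Real.log_mul (by positivity) h5.ne']
    exact (Real.le_log_iff_exp_le h4).2 h3
  -- the two base points
  have hq : ∀ σ : ℝ, σ ^ 2 = 1 → (⟨2 * a, σ * (t - 4 * a)⟩ : ℂ) ∈ ball (0 : ℂ) t ∧
      Real.circleAverage (fun z => poissonKernel 0 ⟨2 * a, σ * (t - 4 * a)⟩ z * D z) 0 t ≤
        |lp| + 2 * t * A + Real.log (1 + t) := by
    intro σ hσ
    set q : ℂ := ⟨2 * a, σ * (t - 4 * a)⟩ with hqd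
    have hqb : q ∈ ball (0 : ℂ) t := by
      have hz : ‖(⟨0, σ * t⟩ : ℂ)‖ = t := by
        have h3 : ‖(⟨0, σ * t⟩ : ℂ)‖ ^ 2 = t ^ 2 := by
          rw [Complex.sq_norm, Complex.normSq_apply]
          simp only
          linear_combination t ^ 2 * hσ
        exact (pow_left_inj₀ (norm_nonneg _) ht0.le two_ne_zero).1 h3
      refine (pk_lower hap hat hσ hz (by simpa using hap) ?_).1
      simp only
      have : σ * (σ * t) = t := by linear_combination t * hσ
      rw [this]
      exact ht0.le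
    have hqn : ‖q‖ < t := by rwa [mem_ball_zero_iff] at hqb
    have hqre : q.re = 2 * a := rfl
    have hqabs : |q.re| = 2 * a := by rw [hqre, abs_of_pos (by positivity)]
    have hqc : C * Real.log (2 + ‖q‖) ≤ |q.re| := by
      rw [hqabs]
      have : Real.log (2 + ‖q‖) ≤ Lg :=
        Real.log_le_log (by positivity) (by linarith)
      nlinarith
    obtain ⟨hfq, hmq⟩ := hgood q hqc (by rw [hqabs]; positivity)
    refine ⟨hqb, (pois_bound hplog hf h1 h2 ht0 hqb hfq).trans ?_⟩
    have h3 := (abs_le.1 (mm_abs h1 h2 q)).1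
    rw [hqabs] at h3
    have h4 : Real.log (1 + ‖q‖) ≤ Real.log (1 + t) :=
      Real.log_le_log (by positivity) (by linarith)
    have h5 : 2 * a * A ≤ t * A := mul_le_mul_of_nonneg_right (by linarith) hA
    linarith
  obtain ⟨hb1, hq1⟩ := hq 1 (by norm_num)
  obtain ⟨hb2, hq2⟩ := hq (-1) (by norm_num)
  set q1 : ℂ := ⟨2 * a, 1 * (t - 4 * a)⟩ with hq1d
  set q2 : ℂ := ⟨2 * a, -1 * (t - 4 * a)⟩ with hq2d
  set E := |lp| + Real.log (1 + t) with hE
  have hE0 : 0 ≤ E := by positivity
  set W : ℂ → ℝ := fun z => E + 25 * a / (4 * t) *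
    (poissonKernel 0 q1 z * D z + poissonKernel 0 q2 z * D z) with hWd
  have hWint : CircleIntegrable W 0 t :=
    (circleIntegrable_const _ _ _).add
      (((pk_mul_int hb1 hDint).add (pk_mul_int hb2 hDint)).const_mul _)
  have hpt : ∀ z, ‖z‖ = t → f z ≠ 0 → D z ≤ W z := by
    intro z hz hfz
    have hDz := hD0 z hfz
    have hP1 := pk_nonneg hb1 hz
    have hP2 := pk_nonneg hb2 hz
    have hfac : 0 ≤ 25 * a / (4 * t) := by positivity
    simp only [hWd]
    rcases le_or_gt a |z.re| with hre | hre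
    · have h3 := (hgood z (by rw [hz]; exact hre) (hap.trans_le hre)).2
      rw [hz] at h3
      have h4 : D z ≤ E := by
        simp only [hD, hE]
        linarith [le_abs_self lp]
      have h5 : 0 ≤ 25 * a / (4 * t) *
        (poissonKernel 0 q1 z * D z + poissonKernel 0 q2 z * D z) := by positivity
      linarith
    · rcases le_total 0 z.im with him | him
      · have h3 := (pk_lower hap hat (σ := 1) (by norm_num) hz hre (by linarith)).2
        have h4 : D z ≤ 25 * a / (4 * t) * (poissonKernel 0 q1 z * D z) := by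
          have h5 : 1 ≤ 25 * a / (4 * t) * poissonKernel 0 q1 z := by
            calc (1 : ℝ) = 25 * a / (4 * t) * (4 * t / (25 * a)) := by
                  field_simp
              _ ≤ _ := mul_le_mul_of_nonneg_left h3 hfac
          calc D z = 1 * D z := (one_mul _).symm
            _ ≤ (25 * a / (4 * t) * poissonKernel 0 q1 z) * D z :=
                mul_le_mul_of_nonneg_right h5 hDz
            _ = _ := by ring
        have h6 : 0 ≤ 25 * a / (4 * t) * (poissonKernel 0 q2 z * D z) := by positivity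
        rw [mul_add]
        linarith
      · have h3 := (pk_lower hap hat (σ := -1) (by norm_num) hz hre (by linarith)).2
        have h4 : D z ≤ 25 * a / (4 * t) * (poissonKernel 0 q2 z * D z) := by
          have h5 : 1 ≤ 25 * a / (4 * t) * poissonKernel 0 q2 z := by
            calc (1 : ℝ) = 25 * a / (4 * t) * (4 * t / (25 * a)) := by
                  field_simp
              _ ≤ _ := mul_le_mul_of_nonneg_left h3 hfac
          calc D z = 1 * D z := (one_mul _).symm
            _ ≤ (25 * a / (4 * t) * poissonKernel 0 q2 z) * D z :=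
                mul_le_mul_of_nonneg_right h5 hDz
            _ = _ := by ring
        have h6 : 0 ≤ 25 * a / (4 * t) * (poissonKernel 0 q1 z * D z) := by positivity
        rw [mul_add]
        linarith
  have hDW : Real.circleAverage D 0 t ≤ Real.circleAverage W 0 t := by
    unfold Real.circleAverage
    rw [smul_eq_mul, smul_eq_mul]
    refine mul_le_mul_of_nonneg_left ?_ (by positivity)
    refine intervalIntegral.integral_mono_ae_restrict Real.two_pi_pos.le hDint hWint ?_
    have h3 := ae_ne_zero hf hf0' (c := 0) ht0.ne'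
    rw [uIoc_of_le Real.two_pi_pos.le] at h3
    rw [← restrict_Ioc_eq_restrict_Icc]
    filter_upwards [h3] with θ hθ
    exact hpt _ (by simp [abs_of_pos ht0]) hθ
  have hWavg : Real.circleAverage W 0 t ≤ E + 25 * a / (4 * t) *
      (2 * (|lp| + 2 * t * A + Real.log (1 + t))) := by
    have e1 : W = (fun _ => E) + (25 * a / (4 * t)) •
        ((fun z => poissonKernel 0 q1 z * D z) + (fun z => poissonKernel 0 q2 z * D z)) := by
      funext z
      simp only [hWd, Pi.add_apply, Pi.smul_apply, smul_eq_mul]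
    rw [e1, Real.circleAverage_add (circleIntegrable_const _ _ _)
      (((pk_mul_int hb1 hDint).add (pk_mul_int hb2 hDint)).const_smul), Real.circleAverage_smul,
      Real.circleAverage_add (pk_mul_int hb1 hDint) (pk_mul_int hb2 hDint),
      Real.circleAverage_const, smul_eq_mul]
    have hfac : 0 ≤ 25 * a / (4 * t) := by positivity
    have := mul_le_mul_of_nonneg_left (add_le_add hq1 hq2) hfac
    linarith
  have hDavg : Real.circleAverage D 0 t = lp + t * ((h₁ + h₂) / π) -
      Real.circleAverage (fun z => Real.log ‖f z‖) 0 t := by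
    have e1 : D = ((fun _ => lp) + mm h₁ h₂) - (fun z => Real.log ‖f z‖) := by
      funext z
      simp [hD]
    rw [e1, Real.circleAverage_sub (circle_int (continuous_const.add (mm_cont h₁ h₂)))
      (log_int hf 0 t), Real.circleAverage_add (circleIntegrable_const _ _ _)
      (circle_int (mm_cont h₁ h₂)), Real.circleAverage_const, avg_mm h12 ht0]
  have hfinal : E + 25 * a / (4 * t) * (2 * (|lp| + 2 * t * A + Real.log (1 + t))) ≤
      ((|lp| + 1) + 25 * C / 2 * (|lp| + 2 * A + 1)) * Lg := by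
    have e1 : E ≤ (|lp| + 1) * Lg := by
      simp only [hE]
      nlinarith [abs_nonneg lp]
    have e2 : 25 * a / (4 * t) * (2 * (|lp| + 2 * t * A + Real.log (1 + t))) ≤
        25 * C / 2 * (|lp| + 2 * A + 1) * Lg := by
      have e3 : |lp| + 2 * t * A + Real.log (1 + t) ≤ t * (|lp| + 2 * A + 1) := by
        nlinarith [abs_nonneg lp]
      calc 25 * a / (4 * t) * (2 * (|lp| + 2 * t * A + Real.log (1 + t)))
          ≤ 25 * a / (4 * t) * (2 * (t * (|lp| + 2 * A + 1))) := by
            refine mul_le_mul_of_nonneg_left ?_ (by positivity)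
            linarith
        _ = 25 * C / 2 * (|lp| + 2 * A + 1) * Lg := by
            rw [ha]
            field_simp
            ring
    linarith
  linarith

theorem low (hplog : T_PLOG) : T_LOW := by
  intro C p A hC hp hA
  obtain ⟨t0, ht0, hlarge⟩ : ∃ t0 : ℝ, 1 ≤ t0 ∧ ∀ t ≥ t0, 5 * (C * Real.log (2 + t)) ≤ t := by
    have h1 := Real.isLittleO_log_id_atTop.def (show (0 : ℝ) < 1 / (15 * C) by positivity)
    obtain ⟨x0, hx0⟩ := eventually_atTop.1 h1
    refine ⟨max 1 x0, le_max_left _ _, fun t ht => ?_⟩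
    have ht1 : 1 ≤ t := (le_max_left _ _).trans ht
    have ht2 : x0 ≤ 2 + t := by linarith [(le_max_right 1 x0).trans ht]
    have h2 := hx0 (2 + t) ht2
    simp only [id_eq, Real.norm_eq_abs] at h2
    have h3 := (le_abs_self _).trans h2
    rw [abs_of_pos (show 0 < 2 + t by linarith)] at h3
    have h4 : 5 * (C * Real.log (2 + t)) ≤ 5 * (C * (1 / (15 * C) * (2 + t))) := by
      have := mul_le_mul_of_nonneg_left h3 hC.le
      linarith
    have h5 : 5 * (C * (1 / (15 * C) * (2 + t))) = (2 + t) / 3 := by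
      field_simp
      ring
    linarith
  set C1 := (|Real.log p| + 1) + 25 * C / 2 * (|Real.log p| + 2 * A + 1) with hC1
  have hC10 : 0 < C1 := by positivity
  refine ⟨C1 + 4 * A * t0, by positivity, ?_⟩
  intro f h₁ h₂ h1 h2 h12 hf hf0 hup hlo t ht
  have hf0' : f 0 ≠ 0 := norm_pos_iff.1 (by rw [hf0]; exact hp)
  have hlog2 : 1 / 2 ≤ Real.log (2 + t) := by
    have h3 : Real.log 2 ≤ Real.log (2 + t) := Real.log_le_log (by norm_num) (by linarith)
    linarith [Real.log_two_gt_d9]
  rcases le_or_gt t0 t with h | h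
  · have h3 := low_large hplog hC hp h1 h2 h12 hf hf0 hup hlo (ht0.trans h) (hlarge t h)
    rw [← hC1] at h3
    have h4 : 0 ≤ 4 * A * t0 * Real.log (2 + t) := by positivity
    linarith
  · have h3 : Real.log p ≤ Real.circleAverage (fun z => Real.log ‖f z‖) 0 t := by
      have h4 := hplog f hf 0 t ht (by simpa using ht) hf0'
      rw [hf0] at h4
      refine h4.trans_eq (Real.circleAverage_congr_sphere fun z hz => ?_)
      rw [abs_of_pos ht, mem_sphere_zero_iff_norm] at hz
      have h5 : poissonKernel 0 0 z = 1 := by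
        unfold poissonKernel
        rw [sub_zero, sub_zero, sub_zero, hz, norm_zero]
        field_simp
        ring
      simp only [h5, one_mul]
    have hpi : 1 ≤ π := by linarith [Real.pi_gt_three]
    have h5 : t * ((h₁ + h₂) / π) ≤ 4 * A * t0 * Real.log (2 + t) := by
      have h6 : (h₁ + h₂) / π ≤ 2 * A := by
        rw [div_le_iff₀ (by linarith)]
        have := (abs_le.1 h1).2
        have := (abs_le.1 h2).2
        nlinarith
      calc t * ((h₁ + h₂) / π) ≤ t * (2 * A) := mul_le_mul_of_nonneg_left h6 ht.le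
        _ ≤ t0 * (2 * A) := mul_le_mul_of_nonneg_right h.le (by positivity)
        _ ≤ 4 * A * t0 * Real.log (2 + t) := by
          have : 0 ≤ A * t0 := by positivity
          nlinarith
    have h7 : 0 ≤ C1 * Real.log (2 + t) := by positivity
    linarith

end Pool.Agent.H24.BP
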