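import Pool.Agent.H24.BP.QL

/-!
# BP module PLOG: Poisson inequality for `log |f|`
-/

open MeasureTheory Set Filter Topology Metric
open scoped Real ENNReal NNReal

namespace Pool.Agent.H24.BP

open Pool.Agent.H66.BP

/-- properties off a discrete subset of the circle hold almost everywhere -/
theorem ae_circle {p : ℂ → Prop} {c : ℂ} {R : ℝ} (hR : R ≠ 0)
    (h : ∀ᶠ z in codiscreteWithin (sphere c |R|), p z) :
    ∀ᵐ θ ∂(volume.restrict (uIoc (0 : ℝ) (2 * π))), p (circleMap c R θ) := by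
  apply ae_restrict_le_codiscreteWithin measurableSet_uIoc
  exact codiscreteWithin_mono (by tauto) (circleMap_preimage_codiscrete hR h)

/-- the zeros of an entire function on a circle are negligible -/
theorem ae_ne_zero {f : ℂ → ℂ} (hf : Differentiable ℂ f) {p : ℂ} (hp : f p ≠ 0) {c : ℂ} {R : ℝ}
    (hR : R ≠ 0) : ∀ᵐ θ ∂(volume.restrict (uIoc (0 : ℝ) (2 * π))), f (circleMap c R θ) ≠ 0 := by
  refine ae_circle (p := fun z => f z ≠ 0) hR ?_
  have h1 := AnalyticOnNhd.preimage_zero_mem_codiscrete (f := f) (x := p)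
    (fun z _ => hf.analyticAt z) hp
  exact codiscreteWithin_mono (subset_univ _) h1

theorem pk_cont {p : ℂ} {R : ℝ} (hp : p ∈ ball (0 : ℂ) R) :
    Continuous fun θ : ℝ => poissonKernel 0 p (circleMap 0 R θ) := by
  unfold poissonKernel
  simp only [sub_zero]
  refine Continuous.div ?_ ?_ ?_
  · exact (((continuous_circleMap 0 R).norm).pow 2).sub continuous_const
  · exact (((continuous_circleMap 0 R).sub continuous_const).norm).pow 2
  · intro θ
    have h := circleMap_ne_mem_ball hp θ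
    exact pow_ne_zero 2 (norm_ne_zero_iff.2 (sub_ne_zero.2 h))

theorem log_int {f : ℂ → ℂ} (hf : Differentiable ℂ f) (c : ℂ) (R : ℝ) :
    CircleIntegrable (fun z => Real.log ‖f z‖) c R :=
  MeromorphicOn.circleIntegrable_log_norm fun z _ => (hf.analyticAt z).meromorphicAt

/-- truncated logarithm -/
noncomputable def uN (f : ℂ → ℂ) (N : ℕ) (z : ℂ) : ℝ := Real.log (max ‖f z‖ (Real.exp (-N)))

theorem uN_cont {f : ℂ → ℂ} (hf : Differentiable ℂ f) (N : ℕ) : Continuous (uN f N) := by
  unfold uN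
  exact (hf.continuous.norm.max continuous_const).log fun z =>
    ((Real.exp_pos _).trans_le (le_max_right _ _)).ne'

theorem uN_ge (f : ℂ → ℂ) (N : ℕ) (z : ℂ) : -(N : ℝ) ≤ uN f N z := by
  unfold uN
  exact (Real.le_log_iff_exp_le ((Real.exp_pos _).trans_le (le_max_right _ _))).2
    (le_max_right _ _)

theorem uN_ge_log (f : ℂ → ℂ) (N : ℕ) {z : ℂ} (hz : f z ≠ 0) : Real.log ‖f z‖ ≤ uN f N z := by
  unfold uN
  exact Real.log_le_log (norm_pos_iff.2 hz) (le_max_left _ _)

theorem uN_sub {f : ℂ → ℂ} (hf : Differentiable ℂ f) (N : ℕ) : SubM (uN f N) := by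
  refine ⟨uN_cont hf N, fun c => ?_⟩
  rcases le_or_gt ‖f c‖ (Real.exp (-N)) with h | h
  · refine ⟨1, one_pos, fun r hr _ => ?_⟩
    have h1 : uN f N c = -(N : ℝ) := by
      unfold uN
      rw [max_eq_right h, Real.log_exp]
    rw [h1, ← Real.circleAverage_const (-(N : ℝ)) c r]
    exact Real.circleAverage_mono (circleIntegrable_const _ _ _)
      ((uN_cont hf N).continuousOn.circleIntegrable') fun z _ => uN_ge f N z
  · have hfc : f c ≠ 0 := norm_pos_iff.1 ((Real.exp_pos _).trans h)
    obtain ⟨r₀, hr₀, hball⟩ := Metric.eventually_nhds_iff_ball.1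
      (hf.continuous.continuousAt.eventually_ne hfc)
    refine ⟨r₀, hr₀, fun r hr hrr => ?_⟩
    have hnz : ∀ z ∈ closedBall c |r|, f z ≠ 0 := fun z hz => hball z (by
      rw [abs_of_pos hr, mem_closedBall] at hz
      rw [mem_ball]; linarith)
    have h1 := AnalyticOnNhd.circleAverage_log_norm_of_ne_zero (c := c) (R := r) (g := f)
      (fun z _ => hf.analyticAt z) hnz
    have h2 : uN f N c = Real.log ‖f c‖ := by
      unfold uN
      rw [max_eq_left h.le]
    rw [h2, ← h1]
    exact Real.circleAverage_mono (log_int hf c r)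
      ((uN_cont hf N).continuousOn.circleIntegrable') fun z hz =>
      uN_ge_log f N (hnz z (sphere_subset_closedBall hz))

theorem uN_abs (f : ℂ → ℂ) (N : ℕ) {z : ℂ} (hz : f z ≠ 0) : |uN f N z| ≤ |Real.log ‖f z‖| := by
  unfold uN
  rcases le_or_gt ‖f z‖ (Real.exp (-N)) with h | h
  · rw [max_eq_right h, Real.log_exp]
    have h1 : Real.log ‖f z‖ ≤ -(N : ℝ) := by
      rw [← Real.log_exp (-(N : ℝ))]
      exact Real.log_le_log (norm_pos_iff.2 hz) h
    have h2 : (0 : ℝ) ≤ N := Nat.cast_nonneg N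
    rw [abs_neg, abs_of_nonneg h2, abs_of_nonpos (by linarith)]
    linarith
  · rw [max_eq_left h.le]

theorem uN_tendsto (f : ℂ → ℂ) {z : ℂ} (hz : f z ≠ 0) :
    Tendsto (fun N : ℕ => uN f N z) atTop (𝓝 (Real.log ‖f z‖)) := by
  refine tendsto_const_nhds.congr' ?_
  have h1 : Tendsto (fun N : ℕ => Real.exp (-(N : ℝ))) atTop (𝓝 0) :=
    Real.tendsto_exp_neg_atTop_nhds_zero.comp tendsto_natCast_atTop_atTop
  filter_upwards [h1.eventually_lt_const (norm_pos_iff.2 hz)] with N hN
  unfold uN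
  rw [max_eq_left hN.le]

theorem plog (hsmp : T_SMP) : T_PLOG := by
  intro f hf p R hR hp hfp
  have h1 : ∀ N : ℕ, Real.log ‖f p‖ ≤
      Real.circleAverage (fun z => poissonKernel 0 p z * uN f N z) 0 R := fun N =>
    (uN_ge_log f N hfp).trans (hsmp _ (uN_sub hf N) 0 p R hR hp)
  refine ge_of_tendsto' (x := atTop) ?_ h1
  unfold Real.circleAverage
  refine Tendsto.const_smul ?_ _
  have hP := pk_cont hp
  have hli : IntervalIntegrable (fun θ => Real.log ‖f (circleMap 0 R θ)‖) volume 0 (2 * π) :=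
    log_int hf 0 R
  refine intervalIntegral.tendsto_integral_filter_of_dominated_convergence
    (fun θ => |poissonKernel 0 p (circleMap 0 R θ)| * |Real.log ‖f (circleMap 0 R θ)‖|)
    (Eventually.of_forall fun N => ?_) (Eventually.of_forall fun N => ?_) ?_ ?_
  · exact (hP.mul ((uN_cont hf N).comp (continuous_circleMap 0 R))).aestronglyMeasurable
  · have h2 := ae_ne_zero hf hfp (c := 0) hR.ne'
    rw [ae_restrict_iff' measurableSet_uIoc] at h2
    filter_upwards [h2] with θ hθ hθ'
    rw [Real.norm_eq_abs, abs_mul]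
    exact mul_le_mul_of_nonneg_left (uN_abs f N (hθ hθ')) (abs_nonneg _)
  · exact (hli.abs).continuousOn_mul hP.abs.continuousOn
  · have h2 := ae_ne_zero hf hfp (c := 0) hR.ne'
    rw [ae_restrict_iff' measurableSet_uIoc] at h2
    filter_upwards [h2] with θ hθ hθ'
    exact (uN_tendsto f (hθ hθ')).const_mul _

end Pool.Agent.H24.BP
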