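import Pool.Agent.H66.BP.Targets

/-!
# BP module QL: maximum principle on an annulus
-/

open MeasureTheory Set Filter Topology Metric
open scoped Real ENNReal NNReal

namespace Pool.Agent.H24.BP

open Pool.Agent.H66.BP

theorem mem_sphere_circleMap' (c : ℂ) {r : ℝ} (hr : 0 ≤ r) (θ : ℝ) : circleMap c r θ ∈ sphere c r :=
  circleMap_mem_sphere c hr θ

/-- the average over a circle is smaller than the bound if the function is somewhere smaller -/
theorem avg_lt {v : ℂ → ℝ} {c : ℂ} {r m : ℝ} (hr : 0 < r) (hv : ContinuousOn v (sphere c r))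
    (hle : ∀ z ∈ sphere c r, v z ≤ m) (hlt : v (c + r) < m) : Real.circleAverage v c r < m := by
  have h1 : ContinuousOn (fun θ : ℝ => v (circleMap c r θ)) (Icc 0 (2 * π)) :=
    hv.comp (continuous_circleMap c r).continuousOn fun θ _ => circleMap_mem_sphere c hr.le θ
  have h2 : ∫ θ in (0 : ℝ)..2 * π, v (circleMap c r θ) < ∫ _ in (0 : ℝ)..2 * π, m := by
    refine intervalIntegral.integral_lt_integral_of_continuousOn_of_le_of_exists_lt
      Real.two_pi_pos h1 continuousOn_const (fun θ _ => hle _ (circleMap_mem_sphere c hr.le θ))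
      ⟨0, ⟨le_rfl, Real.two_pi_pos.le⟩, ?_⟩
    have : circleMap c r 0 = c + r := by simp [circleMap]
    rw [this]
    exact hlt
  have h3 := mul_lt_mul_of_pos_left h2 (inv_pos.2 Real.two_pi_pos)
  unfold Real.circleAverage
  rw [smul_eq_mul]
  refine h3.trans_eq ?_
  rw [intervalIntegral.integral_const, sub_zero, smul_eq_mul]
  field_simp

/-- maximum principle for continuous functions with the local sub-mean property -/
theorem max_principle {v : ℂ → ℝ} {K U : Set ℂ} (hK : IsCompact K) (hU : IsOpen U) (hUK : U ⊆ K)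
    (hv : ContinuousOn v K)
    (hsub : ∀ c ∈ U, ∃ r₀ > 0, ∀ r : ℝ, 0 < r → r < r₀ → v c ≤ Real.circleAverage v c r)
    (hb : ∀ z ∈ K, z ∉ U → v z ≤ 0) : ∀ z ∈ K, v z ≤ 0 := by
  by_contra hcon
  push Not at hcon
  obtain ⟨z₀, hz₀, hpos⟩ := hcon
  obtain ⟨z₁, hz₁, hmax⟩ := hK.exists_isMaxOn ⟨z₀, hz₀⟩ hv
  set m := v z₁ with hm
  have hle : ∀ z ∈ K, v z ≤ m := fun z hz => hmax hz
  have hm0 : 0 < m := hpos.trans_le (hle z₀ hz₀)
  set S : Set ℂ := K ∩ v ⁻¹' {m} with hS
  have hSc : IsCompact S := by
    refine hK.of_isClosed_subset ?_ inter_subset_left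
    exact hv.preimage_isClosed_of_isClosed hK.isClosed isClosed_singleton
  obtain ⟨c, hcS, hcmax⟩ := hSc.exists_isMaxOn ⟨z₁, hz₁, rfl⟩
    (Complex.continuous_re.continuousOn (s := S))
  have hvc : v c = m := hcS.2
  have hcU : c ∈ U := by
    by_contra h
    have := hb c hcS.1 h
    rw [hvc] at this
    linarith
  obtain ⟨r₀, hr₀, hsm⟩ := hsub c hcU
  obtain ⟨r₁, hr₁, hball⟩ := Metric.isOpen_iff.1 hU c hcU
  set r := min (r₀ / 2) (r₁ / 2) with hr
  have hr0 : 0 < r := lt_min (by positivity) (by positivity)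
  have hrr₀ : r < r₀ := (min_le_left _ _).trans_lt (by linarith)
  have hrr₁ : r < r₁ := (min_le_right _ _).trans_lt (by linarith)
  have hsph : sphere c r ⊆ K := fun z hz => hUK (hball (by
    rw [mem_ball]; rw [mem_sphere] at hz; linarith))
  have h1 := hsm r hr0 hrr₀
  have h2 : v (c + r) < m := by
    have hmem : c + r ∈ K := hsph (by simp [abs_of_pos hr0])
    refine lt_of_le_of_ne (hle _ hmem) fun he => ?_
    have h3 : (c + r).re ≤ c.re := hcmax (show c + (r : ℂ) ∈ S from ⟨hmem, he⟩)
    simp at h3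
    linarith
  have h4 := avg_lt hr0 (hv.mono hsph) (fun z hz => hle z (hsph hz)) h2
  rw [hvc] at h1
  linarith

theorem ql : T_QL := by
  intro u hu δ R A B hδ hδ1 hR hB h1 h2
  have hδR : δ < R := hδ1.trans hR
  set L := Real.log R - Real.log δ with hL
  have hLp : 0 < L := sub_pos.2 (Real.log_lt_log hδ hδR)
  set g : ℂ → ℝ := fun l => A + B / L * (Real.log ‖l‖ - Real.log δ) with hg
  set K : Set ℂ := {l | δ ≤ ‖l‖ ∧ ‖l‖ ≤ R} with hK
  set U : Set ℂ := {l | δ < ‖l‖ ∧ ‖l‖ < R} with hU
  have hKc : IsCompact K := by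
    refine Metric.isCompact_of_isClosed_isBounded ?_ ?_
    · exact (isClosed_le continuous_const continuous_norm).inter
        (isClosed_le continuous_norm continuous_const)
    · refine (Metric.isBounded_closedBall (x := (0 : ℂ)) (r := R)).subset fun z hz => ?_
      rw [mem_closedBall_zero_iff]
      exact hz.2
  have hUo : IsOpen U := (isOpen_lt continuous_const continuous_norm).inter
    (isOpen_lt continuous_norm continuous_const)
  have hUK : U ⊆ K := fun z hz => ⟨hz.1.le, hz.2.le⟩
  have hne : ∀ z ∈ K, z ≠ 0 := fun z hz h0 => by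
    have := hz.1
    rw [h0, norm_zero] at this
    linarith
  have hgc : ContinuousOn g {z : ℂ | z ≠ 0} := by
    have hlog : ContinuousOn (fun l : ℂ => Real.log ‖l‖) {z : ℂ | z ≠ 0} :=
      continuous_norm.continuousOn.log fun z hz => norm_ne_zero_iff.2 hz
    exact continuousOn_const.add (continuousOn_const.mul (hlog.sub continuousOn_const))
  have hmain := max_principle (v := fun z => u z - g z) hKc hUo hUK
    (hu.1.continuousOn.sub (hgc.mono hne)) ?_ ?_ 1 ?_
  · simp only [hg, norm_one, Real.log_one] at hmain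
    have h3 : Real.log (1 / δ) = - Real.log δ := by
      rw [Real.log_div one_ne_zero hδ.ne', Real.log_one, zero_sub]
    have h4 : Real.log (R / δ) = L := Real.log_div (by linarith) hδ.ne'
    rw [h3, h4]
    have h5 : B / L * (0 - Real.log δ) = B * (-Real.log δ / L) := by ring
    linarith
  · intro c hc
    obtain ⟨r₀, hr₀, hsub⟩ := hu.2 c
    have hc0 : 0 < ‖c‖ := norm_pos_iff.2 (hne c (hUK hc))
    refine ⟨min r₀ ‖c‖, lt_min hr₀ hc0, fun r hr hrr => ?_⟩
    have hr1 : r < r₀ := hrr.trans_le (min_le_left _ _)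
    have hr2 : r < ‖c‖ := hrr.trans_le (min_le_right _ _)
    have hnz : ∀ z ∈ closedBall c |r|, z ≠ 0 := by
      intro z hz h0
      rw [abs_of_pos hr, mem_closedBall, h0, dist_zero_left] at hz
      linarith
    have hlog := AnalyticOnNhd.circleAverage_log_norm_of_ne_zero (c := c) (R := r)
      (g := fun z => z) (fun z _ => analyticAt_id) hnz
    have hsph : sphere c |r| ⊆ {z : ℂ | z ≠ 0} := fun z hz => hnz z (sphere_subset_closedBall hz)
    have hi1 : CircleIntegrable u c r := (hu.1.continuousOn).circleIntegrable'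
    have hlogc : ContinuousOn (fun l : ℂ => Real.log ‖l‖) {z : ℂ | z ≠ 0} :=
      continuous_norm.continuousOn.log fun z hz => norm_ne_zero_iff.2 hz
    have hi2 : CircleIntegrable (fun l : ℂ => Real.log ‖l‖) c r :=
      (hlogc.mono hsph).circleIntegrable'
    have hgi : CircleIntegrable g c r := (hgc.mono hsph).circleIntegrable'
    have e1 : Real.circleAverage (fun z => u z - g z) c r =
        Real.circleAverage u c r - Real.circleAverage g c r := Real.circleAverage_sub hi1 hgi
    have e2 : Real.circleAverage g c r = g c := by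
      have e3 : g = (fun _ => A - B / L * Real.log δ) + (B / L) • fun l : ℂ => Real.log ‖l‖ := by
        funext l
        simp only [hg, Pi.add_apply, Pi.smul_apply, smul_eq_mul]
        ring
      rw [e3, Real.circleAverage_add (circleIntegrable_const _ _ _) (hi2.const_smul),
        Real.circleAverage_const, Real.circleAverage_smul, hlog]
      rfl
    rw [e1, e2]
    linarith [hsub r hr hr1]
  · intro z hz hzU
    have hz' : ‖z‖ = δ ∨ ‖z‖ = R := by
      by_contra hcon
      push Not at hcon
      exact hzU ⟨lt_of_le_of_ne hz.1 (Ne.symm hcon.1), lt_of_le_of_ne hz.2 hcon.2⟩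
    rcases hz' with h | h
    · have := h1 z h
      simp only [hg, h, sub_self, mul_zero, add_zero]
      linarith
    · have := h2 z h
      simp only [hg, h]
      rw [← hL, div_mul_cancel₀ _ hLp.ne']
      linarith
  · exact ⟨by rw [norm_one]; exact hδ1.le, by rw [norm_one]; exact hR.le⟩

end Pool.Agent.H24.BP
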